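import Pool.Agent.Lib.FW.SpecD
import Pool.Agent.Lib.MuZ.QZ

open scoped Pointwise

noncomputable section

namespace Pool.Agent.FW

open Pool.Agent.MuZ

namespace LiftAux

/-- Lifting of one automorphism of the `m`-th roots of unity. -/
theorem exists_m (m : ℕ) (hm : 0 < m) (a : ℕ) (ha : a.Coprime m) :
    ∃ σ : Gal(Om/ℚ), ∀ z : Om, z ^ m = 1 → σ z = z ^ a := by
  have : NeZero m := ⟨hm.ne'⟩
  obtain ⟨ζ, hζ⟩ := HasEnoughRootsOfUnity.exists_primitiveRoot Om m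
  have hζb : IsPrimitiveRoot (ζ ^ a) m := hζ.pow_of_coprime a ha
  have h1 : minpoly ℚ ζ = minpoly ℚ (ζ ^ a) := by
    rw [← Polynomial.cyclotomic_eq_minpoly_rat hζ hm, ← Polynomial.cyclotomic_eq_minpoly_rat hζb hm]
  obtain ⟨σ, hσ⟩ := (Normal.minpoly_eq_iff_mem_orbit (F := ℚ) (E := Om)).1 h1.symm
  have hσ' : σ ζ = ζ ^ a := hσ
  refine ⟨σ, fun z hz => ?_⟩
  obtain ⟨i, -, rfl⟩ := hζ.eq_pow_of_pow_eq_one hz
  rw [map_pow, hσ', ← pow_mul, ← pow_mul, mul_comm]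

/-- Splitting of roots of unity of coprime orders. -/
theorem split (m n : ℕ) (h : m.Coprime n) (z : Om) (hz : z ^ (m * n) = 1) :
    ∃ z1 z2 : Om, z1 ^ m = 1 ∧ z2 ^ n = 1 ∧ z = z1 * z2 := by
  obtain ⟨c1, h11, h12⟩ := Nat.chineseRemainder h 1 0
  obtain ⟨c2, h21, h22⟩ := Nat.chineseRemainder h 0 1
  refine ⟨z ^ c1, z ^ c2, ?_, ?_, ?_⟩
  · obtain ⟨k, hk⟩ := (Nat.modEq_zero_iff_dvd).1 h12
    rw [hk, ← pow_mul]
    have : n * k * m = m * n * k := by ring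
    rw [this, pow_mul, hz, one_pow]
  · obtain ⟨k, hk⟩ := (Nat.modEq_zero_iff_dvd).1 h21
    rw [hk, ← pow_mul]
    have : m * k * n = m * n * k := by ring
    rw [this, pow_mul, hz, one_pow]
  · have h1 : c1 + c2 ≡ 1 [MOD m * n] := by
      rw [← Nat.modEq_and_modEq_iff_modEq_mul h]
      exact ⟨by simpa using h11.add h21, by simpa using h12.add h22⟩
    rw [← pow_add, pow_eq_pow_of_modEq h1 hz, pow_one]

/-- Compatible systems. -/
theorem sys (p f : ℕ) (hp : p.Prime) (hf : 0 < f) (hpf : ¬ p ∣ f) (u : ℕ → ℕ)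
    (hu : ∀ n, u (n + 1) ≡ u n [MOD p ^ (n + 1)]) (h0 : (u 0).Coprime p) (b : ℕ)
    (hb : b.Coprime f) :
    ∃ δ : Gal(Om/ℚ), (∀ z : Om, z ^ f = 1 → δ z = z ^ b) ∧
      ∀ (n : ℕ) (z : Om), z ^ p ^ (n + 1) = 1 → δ z = z ^ u n := by
  let C : ℕ → Set Gal(Om/ℚ) := fun n =>
    (⋂ z : {z : Om // z ^ f = 1}, {δ : Gal(Om/ℚ) | δ z.1 = z.1 ^ b}) ∩
    ⋂ z : {z : Om // z ^ p ^ (n + 1) = 1}, {δ : Gal(Om/ℚ) | δ z.1 = z.1 ^ u n}
  have hcl : ∀ n, IsClosed (C n) := fun n =>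
    (isClosed_iInter fun z : {z : Om // z ^ f = 1} => QZ.eq_closed' z.1 (z.1 ^ b)).inter
      (isClosed_iInter fun z : {z : Om // z ^ p ^ (n + 1) = 1} => QZ.eq_closed' z.1 (z.1 ^ u n))
  have hmem : ∀ n (δ : Gal(Om/ℚ)), δ ∈ C n ↔ (∀ z : Om, z ^ f = 1 → δ z = z ^ b) ∧
      ∀ z : Om, z ^ p ^ (n + 1) = 1 → δ z = z ^ u n := by
    intro n δ
    simp only [C, Set.mem_inter_iff, Set.mem_iInter, Subtype.forall, Set.mem_ofPred_eq]
  have hco : ∀ n, (u n).Coprime p := by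
    intro n
    induction n with
    | zero => exact h0
    | succ n ih =>
      have h1 : u (n + 1) ≡ u n [MOD p] := (hu n).of_dvd (dvd_pow_self p (Nat.succ_ne_zero n))
      have h2 := h1.gcd_eq
      unfold Nat.Coprime at ih ⊢
      rw [h2, ih]
  have hfp : f.Coprime p := ((Nat.Prime.coprime_iff_not_dvd hp).2 hpf).symm
  have hne : (⋂ n, C n).Nonempty := by
    apply IsCompact.nonempty_iInter_of_sequence_nonempty_isCompact_isClosed
    · intro n x hx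
      rw [hmem] at hx ⊢
      refine ⟨hx.1, fun z hz => ?_⟩
      have hz' : z ^ p ^ (n + 1 + 1) = 1 := by
        rw [pow_succ p (n + 1), pow_mul, hz, one_pow]
      rw [hx.2 z hz']
      exact pow_eq_pow_of_modEq (hu n) hz
    · intro n
      have hc : f.Coprime (p ^ (n + 1)) := Nat.Coprime.pow_right _ hfp
      obtain ⟨a, ha1, ha2⟩ := Nat.chineseRemainder hc b (u n)
      have h1 : a.Coprime f := by
        have := ha1.gcd_eq
        unfold Nat.Coprime at hb ⊢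
        rw [this, hb]
      have h2 : a.Coprime (p ^ (n + 1)) := by
        have := ha2.gcd_eq
        have h3 : (u n).Coprime (p ^ (n + 1)) := Nat.Coprime.pow_right _ (hco n)
        unfold Nat.Coprime at h3 ⊢
        rw [this, h3]
      obtain ⟨σ, hσ⟩ := exists_m (f * p ^ (n + 1)) (Nat.mul_pos hf (pow_pos hp.pos _)) a
        (Nat.Coprime.mul_right h1 h2)
      refine ⟨σ, (hmem n σ).2 ⟨fun z hz => ?_, fun z hz => ?_⟩⟩
      · rw [hσ z (by rw [pow_mul, hz, one_pow])]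
        exact pow_eq_pow_of_modEq ha1 hz
      · rw [hσ z (by rw [mul_comm, pow_mul, hz, one_pow])]
        exact pow_eq_pow_of_modEq ha2 hz
    · exact (hcl 0).isCompact
    · exact hcl
  obtain ⟨δ, hδ⟩ := hne
  rw [Set.mem_iInter] at hδ
  exact ⟨δ, ((hmem 0 δ).1 (hδ 0)).1, fun n => ((hmem n δ).1 (hδ n)).2⟩

theorem tei (p h n : ℕ) (hp : p.Prime) : h ^ p ^ (n + 1) ≡ h ^ p ^ n [MOD p ^ (n + 1)] := by
  have : Fact p.Prime := ⟨hp⟩
  have h1 : (p : ℤ) ∣ ((h : ℤ) ^ p) - (h : ℤ) := by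
    have h2 : (((h : ℤ) : ZMod p)) ^ p = ((h : ℤ) : ZMod p) := ZMod.pow_card _
    rw [← Int.cast_pow] at h2
    exact (ZMod.intCast_eq_intCast_iff_dvd_sub _ _ _).1 h2.symm
  have h3 := dvd_sub_pow_of_dvd_sub h1 n
  refine Nat.ModEq.symm (Nat.modEq_iff_dvd.2 ?_)
  push_cast
  rw [← pow_mul, ← pow_succ'] at h3
  exact h3

end LiftAux

theorem tLift : S_Lift := by
  intro p f hpf hf hpdf
  have hp : p.Prime := hpf.out
  have hfp : f.Coprime p := ((Nat.Prime.coprime_iff_not_dvd hp).2 hpdf).symm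
  have : NeZero f := ⟨hf.ne'⟩
  refine ⟨?_, ?_⟩
  · intro b η
    obtain ⟨δ, h1, h2⟩ := LiftAux.sys p f hp hf hpdf (fun n => (η : ZMod p).val ^ p ^ n)
      (fun n => LiftAux.tei p _ n hp)
      (by
        rw [pow_zero, pow_one]
        exact ZMod.val_coe_unit_coprime η)
      (b : ZMod f).val (ZMod.val_coe_unit_coprime b)
    exact ⟨δ, h1, h2⟩
  · obtain ⟨γ, h1, h2⟩ := LiftAux.sys p f hp hf hpdf (fun _ => 1 + p) (fun n => Nat.ModEq.refl _)
      (by simp) 1 (Nat.coprime_one_left f)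
    refine ⟨γ, ?_, ?_⟩
    · intro z hz
      obtain ⟨z1, z2, hz1, hz2, rfl⟩ := LiftAux.split f p hfp z hz
      rw [map_mul, h1 z1 hz1, h2 0 z2 (by rw [zero_add, pow_one]; exact hz2), pow_one, pow_add,
        pow_one, hz2, mul_one]
    · intro z n hz
      cases n with
      | zero =>
        rw [pow_zero, pow_one] at hz
        rw [hz, map_one, one_pow]
      | succ n => exact h2 n z hz

end Pool.Agent.FW
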