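import Pool.Agent.Lib.FW.SpecD

/-!
# Conjugation of characters (`S_Cj`)
-/

open scoped Pointwise

noncomputable section

namespace Pool.Agent.FW

open Pool.Agent.MuZ

namespace CjAux

/-- `U` is normal. -/
theorem UU_conj {p f : ℕ} (σ : Gal(Om/ℚ)) {u : Gal(Om/ℚ)} (hu : u ∈ UU p f) :
    σ⁻¹ * u * σ ∈ UU p f := by
  rcases hu with hu | hu
  · refine Or.inl fun z hz => ?_
    rw [AlgEquiv.mul_apply, AlgEquiv.mul_apply, hu _ (hz.map σ)]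
    exact σ.symm_apply_apply z
  · refine Or.inr fun z hz => ?_
    rw [AlgEquiv.mul_apply, AlgEquiv.mul_apply, hu _ (hz.map σ), map_inv₀]
    exact congrArg _ (σ.symm_apply_apply z)

theorem UU_conj_iff {p f : ℕ} (σ u : Gal(Om/ℚ)) :
    σ⁻¹ * u * σ ∈ UU p f ↔ u ∈ UU p f := by
  refine ⟨fun h => ?_, UU_conj σ⟩
  have h1 := UU_conj (σ⁻¹) h
  have h2 : σ⁻¹⁻¹ * (σ⁻¹ * u * σ) * σ⁻¹ = u := by group
  rwa [h2] at h1

theorem conj_mem_inertia (σ τ : Gal(Om/ℚ)) (P : Ideal ZZ) (h : τ ∈ P.inertia Gal(Om/ℚ)) :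
    σ⁻¹ * τ * σ ∈ (σ⁻¹ • P).inertia Gal(Om/ℚ) := by
  intro x
  have h1 := h (σ • x)
  have h2 : σ⁻¹ • (τ • σ • x - σ • x) ∈ σ⁻¹ • P := Ideal.smul_mem_pointwise_smul σ⁻¹ _ _ h1
  rw [smul_sub, inv_smul_smul] at h2
  simpa [mul_smul] using h2

theorem add_one {p : ℕ} {G : Type} [Group G] {W : Subgroup G} {g : G → ZMod p}
    (h : ∀ x ∈ W, ∀ y ∈ W, g (x * y) = g x + g y) : g 1 = 0 := by
  have h2 := h 1 (one_mem _) 1 (one_mem _)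
  rw [mul_one] at h2
  simpa using h2

theorem add_inv {p : ℕ} {G : Type} [Group G] {W : Subgroup G} {g : G → ZMod p}
    (h : ∀ x ∈ W, ∀ y ∈ W, g (x * y) = g x + g y) {x : G} (hx : x ∈ W) : g x⁻¹ = - g x := by
  have h2 := h x hx x⁻¹ (inv_mem hx)
  rw [mul_inv_cancel, add_one h] at h2
  exact (neg_eq_of_add_eq_zero_right h2.symm).symm

end CjAux

open CjAux

theorem tCj : S_Cj := by
  intro p f _ g hg
  obtain ⟨h1, h2, ⟨O, h3⟩, h4⟩ := hg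
  refine ⟨fun σ => ⟨?_, ?_, ?_, ?_⟩, ?_⟩
  · intro τ hτ
    exact h1 _ (fun h => hτ ((UU_conj_iff σ τ).1 h))
  · intro a ha b hb
    change g (σ⁻¹ * (a * b) * σ) = g (σ⁻¹ * a * σ) + g (σ⁻¹ * b * σ)
    rw [← h2 _ (UU_conj σ ha) _ (UU_conj σ hb)]
    congr 1
    group
  · have hc : Continuous (fun τ : Gal(Om/ℚ) => σ⁻¹ * τ * σ) := by fun_prop
    let φ : Gal(Om/ℚ) →* Gal(Om/ℚ) := (MulAut.conj σ⁻¹).toMonoidHom
    have hφ : ∀ τ, φ τ = σ⁻¹ * τ * σ := by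
      intro τ
      change σ⁻¹ * τ * σ⁻¹⁻¹ = _
      rw [inv_inv]
    have hcφ : Continuous φ := by
      have h5 : (φ : Gal(Om/ℚ) → Gal(Om/ℚ)) = fun τ => σ⁻¹ * τ * σ := funext hφ
      rw [h5]
      exact hc
    refine ⟨O.comap φ hcφ, ?_⟩
    intro τ hτ hτO
    have h5 : φ τ ∈ O := hτO
    rw [hφ] at h5
    exact h3 _ (UU_conj σ hτ) h5
  · rintro Λ ⟨P, hP, hP0, hpP, rfl⟩ τ hτ hτU
    refine h4 ((σ⁻¹ • P).inertia Gal(Om/ℚ)) ⟨σ⁻¹ • P, Ideal.IsPrime.smul σ⁻¹, ?_, ?_, rfl⟩ _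
      (conj_mem_inertia σ τ P hτ) (UU_conj σ hτU)
    · intro h
      apply hP0
      have h5 : σ • (σ⁻¹ • P) = σ • (⊥ : Ideal ZZ) := by rw [h]
      rw [smul_inv_smul] at h5
      rw [h5]
      exact Ideal.smul_bot σ
    · intro h
      apply hpP
      have h5 : σ • (p : ZZ) ∈ σ • (σ⁻¹ • P) := Ideal.smul_mem_pointwise_smul σ _ _ h
      have h6 : σ • (p : ZZ) = (p : ZZ) :=
        map_natCast (MulSemiringAction.toRingHom Gal(Om/ℚ) ZZ σ) p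
      rwa [h6, smul_inv_smul] at h5
  · intro u hu
    funext τ
    by_cases hτ : τ ∈ UU p f
    · rw [h2 _ (mul_mem (inv_mem hu) hτ) _ hu, h2 _ (inv_mem hu) _ hτ, add_inv h2 hu]
      ring
    · rw [h1 τ hτ, h1]
      exact fun h => hτ ((UU_conj_iff u τ).1 h)

end Pool.Agent.FW
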