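import Pool.Agent.Lib.FW.SpecD

open scoped Pointwise

noncomputable section

namespace Pool.Agent.FW

open Pool.Agent.MuZ

namespace DAAux

theorem comm {p : ℕ} {Δ V : Type} [CommGroup Δ] [AddCommGroup V]
    [Module (ZMod p) V] (ρ : Representation (ZMod p) Δ V) (t : V →ₗ[ZMod p] V)
    (h : ∀ (d : Δ) (x : V), ρ d (t x) = t (ρ d x)) (r : MonoidAlgebra (ZMod p) Δ) (x : V) :
    ρ.asAlgebraHom r (t x) = t (ρ.asAlgebraHom r x) := by
  induction r using MonoidAlgebra.induction_on with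
  | of g =>
    rw [Representation.asAlgebraHom_of]
    exact h g x
  | add f g hf hg => rw [map_add, LinearMap.add_apply, hf, hg, LinearMap.add_apply, map_add]
  | smul r f hf => rw [map_smul, LinearMap.smul_apply, hf, LinearMap.smul_apply, map_smul]

theorem nil {p : ℕ} {V : Type} [AddCommGroup V] [Module (ZMod p) V]
    (N : V →ₗ[ZMod p] V) (h : {x : V | N x = 0}.Finite) (m : ℕ) :
    {x : V | (N ^ m) x = 0}.Finite := by
  induction m with
  | zero =>
    refine (Set.finite_singleton (0 : V)).subset ?_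
    intro x hx
    exact hx
  | succ m ih =>
    have hfib : ∀ b ∈ {x : V | (N ^ m) x = 0}, (N ⁻¹' {b}).Finite := by
      intro b _
      rcases Set.eq_empty_or_nonempty (N ⁻¹' {b}) with h' | ⟨x0, hx0⟩
      · rw [h']
        exact Set.finite_empty
      · refine (h.image (fun y => x0 + y)).subset ?_
        intro y hy
        have hy' : N y = b := hy
        have hx' : N x0 = b := hx0
        refine ⟨y - x0, ?_, add_sub_cancel x0 y⟩
        show N (y - x0) = 0
        rw [map_sub, hy', hx', sub_self]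
    refine (ih.preimage' hfib).subset ?_
    intro x hx
    have hx' : (N ^ (m + 1)) x = 0 := hx
    rw [pow_succ, Module.End.mul_apply] at hx'
    exact hx'

end DAAux

theorem tDA : S_DA := by
  intro hFinM hPol p _ Δ V _ _ _ _ ρ t w j hcomm hj huni hfix hcompat hrel hnv
  let R := MonoidAlgebra (ZMod p) Δ
  let modR : Module R V := Module.compHom V ρ.asAlgebraHom.toRingHom
  have smul_def : ∀ (r : R) (x : V), r • x = ρ.asAlgebraHom r x := fun r x => rfl
  have finR : Finite R := by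
    refine Finite.of_injective (fun r : R => (r.coeff : Δ → ZMod p)) ?_
    intro a b hab
    exact MonoidAlgebra.coeff_injective (DFunLike.coe_injective hab)
  refine hFinM R V ?_
  intro 𝔪 hmax
  let fld : Field (R ⧸ 𝔪) := Ideal.Quotient.field 𝔪
  let W : Submodule R V :=
    { carrier := {x : V | ∀ a ∈ 𝔪, a • x = 0}
      add_mem' := by
        intro x y hx hy a ha
        rw [smul_add, hx a ha, hy a ha, add_zero]
      zero_mem' := fun a _ => smul_zero a
      smul_mem' := by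
        intro c x hx a ha
        rw [smul_smul, mul_comm, ← smul_smul, hx a ha, smul_zero] }
  have hT : Module.IsTorsionBySet R W 𝔪 := by
    intro x a
    exact Subtype.ext (x.2 a a.2)
  let modK : Module (R ⧸ 𝔪) W := hT.module
  have mk_smul : ∀ (r : R) (x : W), (Ideal.Quotient.mk 𝔪 r) • x = r • x := fun r x => rfl
  have hchar : CharP (R ⧸ 𝔪) p := by
    rw [CharP.charP_iff_prime_eq_zero Fact.out]
    have h1 : ((p : ℕ) : R) = 0 := by
      have h2 : algebraMap (ZMod p) R ((p : ℕ) : ZMod p) = 0 := by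
        rw [ZMod.natCast_self, map_zero]
      rw [map_natCast] at h2
      exact h2
    have h3 : Ideal.Quotient.mk 𝔪 ((p : ℕ) : R) = 0 := by rw [h1, map_zero]
    rw [map_natCast] at h3
    exact h3
  have tR : ∀ (r : R) (x : V), t (r • x) = r • t x := by
    intro r x
    rw [smul_def, smul_def]
    exact (DAAux.comm ρ t hcomm r x).symm
  let t' : W →ₗ[R ⧸ 𝔪] W :=
    { toFun := fun x => ⟨t x, by
        intro a ha
        rw [← tR, x.2 a ha, map_zero]⟩
      map_add' := fun x y => Subtype.ext (map_add t (x : V) y)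
      map_smul' := by
        intro c x
        obtain ⟨r, rfl⟩ := Ideal.Quotient.mk_surjective c
        exact Subtype.ext (tR r x) }
  have t'_coe : ∀ x : W, ((t' x : W) : V) = t x := fun x => rfl
  have t'_pow : ∀ (n : ℕ) (x : W), (((t' ^ n) x : W) : V) = (t ^ n) x := by
    intro n
    induction n with
    | zero => intro x; rfl
    | succ n ih =>
      intro x
      rw [pow_succ, Module.End.mul_apply, ih, t'_coe, pow_succ, Module.End.mul_apply]
  let χ : Δ →* (R ⧸ 𝔪)ˣ :=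
    MonoidHom.toHomUnits (((Ideal.Quotient.mk 𝔪 : R →+* R ⧸ 𝔪) : R →* R ⧸ 𝔪).comp
      (MonoidAlgebra.of (ZMod p) Δ))
  have χ_coe : ∀ d : Δ, ((χ d : (R ⧸ 𝔪)ˣ) : R ⧸ 𝔪) =
      Ideal.Quotient.mk 𝔪 (MonoidAlgebra.of (ZMod p) Δ d) := fun d => rfl
  have χ_smul : ∀ (d : Δ) (x : W), ((((χ d)⁻¹ : (R ⧸ 𝔪)ˣ) : R ⧸ 𝔪) • x : W) =
      (⟨ρ d⁻¹ x, by
        have h := (MonoidAlgebra.of (ZMod p) Δ d⁻¹ • x : W).2
        have h2 : ((MonoidAlgebra.of (ZMod p) Δ d⁻¹ • x : W) : V) = ρ d⁻¹ x := by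
          show ρ.asAlgebraHom (MonoidAlgebra.of (ZMod p) Δ d⁻¹) (x : V) = ρ d⁻¹ x
          rw [Representation.asAlgebraHom_of]
        rw [h2] at h
        exact h⟩ : W) := by
    intro d x
    rw [← map_inv, χ_coe, mk_smul]
    refine Subtype.ext ?_
    show ρ.asAlgebraHom (MonoidAlgebra.of (ZMod p) Δ d⁻¹) (x : V) = ρ d⁻¹ x
    rw [Representation.asAlgebraHom_of]
  have cast_eq : ∀ r : ZMod p, ZMod.castHom (dvd_refl p) (R ⧸ 𝔪) r =
      Ideal.Quotient.mk 𝔪 (algebraMap (ZMod p) R r) := by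
    intro r
    have h : (ZMod.castHom (dvd_refl p) (R ⧸ 𝔪) : ZMod p →+* R ⧸ 𝔪) =
        (Ideal.Quotient.mk 𝔪).comp (algebraMap (ZMod p) R) := RingHom.ext_zmod _ _
    rw [h]
    rfl
  have cast_smul : ∀ (r : ZMod p) (x : W),
      ((ZMod.castHom (dvd_refl p) (R ⧸ 𝔪) r • x : W) : V) = r • (x : V) := by
    intro r x
    rw [cast_eq, mk_smul]
    show ρ.asAlgebraHom (algebraMap (ZMod p) R r) (x : V) = r • (x : V)
    rw [AlgHom.commutes]
    rfl
  -- the coefficients
  let c : ℕ → ℕ → R ⧸ 𝔪 := fun n i =>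
    ∑ d : Δ, ZMod.castHom (dvd_refl p) (R ⧸ 𝔪) (w n i d) * (((χ d)⁻¹ : (R ⧸ 𝔪)ˣ) : R ⧸ 𝔪)
  have c_smul : ∀ (n i : ℕ) (x : W), ((c n i • x : W) : V) = ∑ d : Δ, w n i d • ρ d⁻¹ x := by
    intro n i x
    show (((∑ d : Δ, ZMod.castHom (dvd_refl p) (R ⧸ 𝔪) (w n i d) *
      (((χ d)⁻¹ : (R ⧸ 𝔪)ˣ) : R ⧸ 𝔪)) • x : W) : V) = _
    rw [Finset.sum_smul, AddSubmonoidClass.coe_finsetSum]
    refine Finset.sum_congr rfl fun d _ => ?_
    rw [mul_smul, cast_smul, χ_smul]
  by_cases hW : ∃ x : W, x ≠ 0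
  swap
  · push Not at hW
    refine (Set.finite_singleton (0 : V)).subset ?_
    intro x hx
    have h := hW ⟨x, hx⟩
    exact congrArg Subtype.val h
  obtain ⟨x0, hx0⟩ := hW
  have hχj : χ j = 1 := by
    have h1 : ((((χ j)⁻¹ : (R ⧸ 𝔪)ˣ) : R ⧸ 𝔪) - 1) • x0 = 0 := by
      rw [sub_smul, one_smul, χ_smul, sub_eq_zero]
      refine Subtype.ext ?_
      show ρ j⁻¹ (x0 : V) = x0
      have h2 : ρ j⁻¹ (ρ j (x0 : V)) = x0 := by
        rw [← Module.End.mul_apply, ← map_mul, inv_mul_cancel, map_one]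
        rfl
      rw [hj] at h2
      exact h2
    have h3 : (((χ j)⁻¹ : (R ⧸ 𝔪)ˣ) : R ⧸ 𝔪) - 1 = 0 := by
      rcases smul_eq_zero.mp h1 with h | h
      · exact h
      · exact absurd h hx0
    have h4 : ((χ j)⁻¹ : (R ⧸ 𝔪)ˣ) = 1 := by
      refine Units.ext ?_
      rw [Units.val_one]
      exact sub_eq_zero.mp h3
    exact inv_eq_one.mp h4
  obtain ⟨n1, i1, hi1, hne⟩ := hnv (R ⧸ 𝔪) χ hχj
  obtain ⟨l, hl⟩ := hPol p (R ⧸ 𝔪) W t' c
    (by
      intro x
      obtain ⟨k, hk⟩ := huni x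
      refine ⟨k, Subtype.ext ?_⟩
      rw [t'_pow]
      exact hk)
    (by
      intro n i hi
      show ∑ k ∈ Finset.range p, ∑ d : Δ, ZMod.castHom (dvd_refl p) (R ⧸ 𝔪)
        (w (n + 1) (i + p ^ n * k) d) * (((χ d)⁻¹ : (R ⧸ 𝔪)ˣ) : R ⧸ 𝔪) = _
      rw [Finset.sum_comm]
      refine Finset.sum_congr rfl fun d _ => ?_
      rw [← Finset.sum_mul, ← map_sum, hcompat n i d hi])
    (by
      intro x
      obtain ⟨n', hn'⟩ := hrel x
      refine ⟨n', fun n hn => Subtype.ext ?_⟩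
      rw [AddSubmonoidClass.coe_finsetSum, ZeroMemClass.coe_zero, ← hn' n hn]
      refine Finset.sum_congr rfl fun i _ => ?_
      rw [c_smul, t'_pow])
    ⟨n1, i1, hi1, hne⟩
  have hfix' : {x : V | (t - 1) x = 0}.Finite := by
    refine hfix.subset ?_
    intro x hx
    have hx' : (t - 1) x = 0 := hx
    rw [LinearMap.sub_apply, Module.End.one_apply, sub_eq_zero] at hx'
    exact hx'
  refine (DAAux.nil (t - 1) hfix' l).subset ?_
  intro x hx
  have key : ∀ (n : ℕ) (y : W), ((((t' - 1) ^ n) y : W) : V) = ((t - 1) ^ n) (y : V) := by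
    intro n
    induction n with
    | zero => intro y; rfl
    | succ n ih =>
      intro y
      rw [pow_succ, Module.End.mul_apply, ih, pow_succ, Module.End.mul_apply]
      rfl
  show ((t - 1) ^ l) x = 0
  have h := key l ⟨x, hx⟩
  rw [hl] at h
  exact h.symm

end Pool.Agent.FW
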