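import Pool.Agent.Lib.FW.SpecD

/-!
# FW, part D: assembly of the finiteness theorem
-/

open scoped Pointwise

noncomputable section

namespace Pool.Agent.FW

open Pool.Agent.MuZ

namespace DAsAux

/-! ## Powers of roots of unity -/

private theorem pow_congr {z : Om} {m a b : ℕ} (hz : z ^ m = 1) (h : a ≡ b [MOD m]) :
    z ^ a = z ^ b := by
  rw [pow_eq_pow_mod a hz, pow_eq_pow_mod b hz, h]

private theorem pow_one_of {z : Om} {m a : ℕ} (hz : z ^ m = 1) (h : m ∣ a) : z ^ a = 1 := by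
  obtain ⟨k, rfl⟩ := h
  rw [pow_mul, hz, one_pow]

private theorem modEq_pow {p a b : ℕ} (h : a ≡ b [MOD p]) (n : ℕ) :
    a ^ p ^ n ≡ b ^ p ^ n [MOD p ^ (n + 1)] := by
  have h1 : (p : ℤ) ∣ (b : ℤ) - (a : ℤ) := (Nat.modEq_iff_dvd).1 h
  have h2 := dvd_sub_pow_of_dvd_sub h1 n
  refine (Nat.modEq_iff_dvd).2 ?_
  push_cast
  exact h2

/-- Decomposition of a root of unity. -/
private theorem decomp {p f : ℕ} (hp : p.Prime) (hpf : ¬ p ∣ f) {n : ℕ} {z : Om}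
    (hz : z ^ (f * p ^ n) = 1) :
    ∃ z1 z2 : Om, z1 ^ f = 1 ∧ z2 ^ p ^ (n + 1) = 1 ∧ z = z1 * z2 := by
  have hf : f ≠ 0 := by
    rintro rfl
    exact hpf (dvd_zero p)
  have hm : f * p ^ n ≠ 0 := mul_ne_zero hf (pow_ne_zero _ hp.ne_zero)
  have hz0 : z ≠ 0 := by
    rintro rfl
    rw [zero_pow hm] at hz
    exact zero_ne_one hz
  have hcop : Nat.Coprime f (p ^ (n + 1)) :=
    Nat.Coprime.pow_right _ ((Nat.Prime.coprime_iff_not_dvd hp).2 hpf).symm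
  have hz1 : z ^ (f * p ^ (n + 1)) = 1 := by
    rw [pow_succ, ← mul_assoc, pow_mul, hz, one_pow]
  have hb := Nat.gcd_eq_gcd_ab f (p ^ (n + 1))
  rw [hcop.gcd_eq_one] at hb
  have hz1' : z ^ (((f * p ^ (n + 1) : ℕ) : ℤ)) = 1 := by
    rw [zpow_natCast]
    exact hz1
  refine ⟨z ^ (((p ^ (n + 1) : ℕ) : ℤ) * Nat.gcdB f (p ^ (n + 1))),
    z ^ ((f : ℤ) * Nat.gcdA f (p ^ (n + 1))), ?_, ?_, ?_⟩
  · rw [← zpow_natCast, ← zpow_mul,
      show ((p ^ (n + 1) : ℕ) : ℤ) * Nat.gcdB f (p ^ (n + 1)) * (f : ℤ) =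
        ((f * p ^ (n + 1) : ℕ) : ℤ) * Nat.gcdB f (p ^ (n + 1)) by push_cast; ring,
      zpow_mul, hz1', one_zpow]
  · rw [← zpow_natCast, ← zpow_mul,
      show (f : ℤ) * Nat.gcdA f (p ^ (n + 1)) * ((p ^ (n + 1) : ℕ) : ℤ) =
        ((f * p ^ (n + 1) : ℕ) : ℤ) * Nat.gcdA f (p ^ (n + 1)) by push_cast; ring,
      zpow_mul, hz1', one_zpow]
  · rw [← zpow_add₀ hz0, add_comm, ← hb]
    simp

/-! ## The action on characters -/

section Act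

variable {p f : ℕ} [Fact p.Prime]

/-- The action of `Gal(Om/ℚ)` on the characters. -/
private def RA (hC : ∀ g ∈ VV p (LocO p) (UU p f), ∀ σ : Gal(Om/ℚ),
      (fun τ => g (σ⁻¹ * τ * σ)) ∈ VV p (LocO p) (UU p f)) :
    Gal(Om/ℚ) →* (VV p (LocO p) (UU p f) →ₗ[ZMod p] VV p (LocO p) (UU p f)) where
  toFun σ :=
    { toFun := fun g => ⟨fun τ => g.1 (σ⁻¹ * τ * σ), hC g.1 g.2 σ⟩
      map_add' := fun g h => Subtype.ext (funext fun τ => rfl)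
      map_smul' := fun c g => Subtype.ext (funext fun τ => rfl) }
  map_one' := by
    refine LinearMap.ext fun g => Subtype.ext (funext fun τ => ?_)
    show g.1 (1⁻¹ * τ * 1) = g.1 τ
    rw [inv_one, one_mul, mul_one]
  map_mul' σ σ' := by
    refine LinearMap.ext fun g => Subtype.ext (funext fun τ => ?_)
    show g.1 ((σ * σ')⁻¹ * τ * (σ * σ')) = g.1 (σ'⁻¹ * (σ⁻¹ * τ * σ) * σ')
    rw [mul_inv_rev]
    simp only [mul_assoc]

private theorem RA_apply (hC : ∀ g ∈ VV p (LocO p) (UU p f), ∀ σ : Gal(Om/ℚ),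
      (fun τ => g (σ⁻¹ * τ * σ)) ∈ VV p (LocO p) (UU p f)) (σ : Gal(Om/ℚ))
    (g : VV p (LocO p) (UU p f)) (τ : Gal(Om/ℚ)) : (RA hC σ g).1 τ = g.1 (σ⁻¹ * τ * σ) := rfl

private theorem RA_U (hC : ∀ g ∈ VV p (LocO p) (UU p f), ∀ σ : Gal(Om/ℚ),
      (fun τ => g (σ⁻¹ * τ * σ)) ∈ VV p (LocO p) (UU p f))
    (hU : ∀ g ∈ VV p (LocO p) (UU p f), ∀ u ∈ UU p f, (fun τ => g (u⁻¹ * τ * u)) = g)
    {u : Gal(Om/ℚ)} (hu : u ∈ UU p f) : RA hC u = 1 := by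
  refine LinearMap.ext fun g => Subtype.ext ?_
  exact hU g.1 g.2 u hu

private theorem RA_congr (hC : ∀ g ∈ VV p (LocO p) (UU p f), ∀ σ : Gal(Om/ℚ),
      (fun τ => g (σ⁻¹ * τ * σ)) ∈ VV p (LocO p) (UU p f))
    (hU : ∀ g ∈ VV p (LocO p) (UU p f), ∀ u ∈ UU p f, (fun τ => g (u⁻¹ * τ * u)) = g)
    {σ σ' : Gal(Om/ℚ)} (h : ∀ z : Om, IsRt p f z → σ z = σ' z) : RA hC σ = RA hC σ' := by
  have h1 : σ'⁻¹ * σ ∈ UU p f := by
    refine MM_le_UU p f fun z hz => ?_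
    rw [AlgEquiv.mul_apply, h z hz, ← AlgEquiv.mul_apply, inv_mul_cancel, AlgEquiv.one_apply]
  have h2 : RA hC σ = RA hC (σ' * (σ'⁻¹ * σ)) := by rw [mul_inv_cancel_left]
  rw [h2, map_mul, RA_U hC hU h1, mul_one]

end Act

private theorem inv_congr {G M : Type*} [Group G] [Monoid M] (R : G →* M) {x y : G}
    (h : R x = R y) : R x⁻¹ = R y⁻¹ := by
  calc R x⁻¹ = R x⁻¹ * (R y * R y⁻¹) := by
        rw [← map_mul R y, mul_inv_cancel, map_one, mul_one]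
    _ = R x⁻¹ * R x * R y⁻¹ := by rw [← h, mul_assoc]
    _ = R y⁻¹ := by rw [← map_mul R x⁻¹, inv_mul_cancel, map_one, one_mul]

/-! ## Automorphisms and roots of unity -/

private theorem eqR {p f : ℕ} (hp : p.Prime) (hpf : ¬ p ∣ f) {σ σ' : Gal(Om/ℚ)}
    (h1 : ∀ z : Om, z ^ f = 1 → σ z = σ' z)
    (h2 : ∀ (n : ℕ) (z : Om), z ^ p ^ (n + 1) = 1 → σ z = σ' z) (z : Om) (hz : IsRt p f z) :
    σ z = σ' z := by
  obtain ⟨n, hn⟩ := hz
  obtain ⟨z1, z2, e1, e2, rfl⟩ := decomp hp hpf hn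
  rw [map_mul, map_mul, h1 z1 e1, h2 n z2 e2]

private theorem del_mul {p f : ℕ} (hp : p.Prime) (hpf : ¬ p ∣ f) [NeZero f]
    {b b' : (ZMod f)ˣ} {η η' : (ZMod p)ˣ} {δ1 δ2 δ3 : Gal(Om/ℚ)}
    (h1 : IsDel p f b η δ1) (h2 : IsDel p f b' η' δ2) (h3 : IsDel p f (b * b') (η * η') δ3) :
    ∀ z : Om, IsRt p f z → δ3 z = (δ1 * δ2) z := by
  have : NeZero p := ⟨hp.ne_zero⟩
  refine eqR hp hpf (fun z hz => ?_) (fun n z hz => ?_)
  · rw [AlgEquiv.mul_apply, h2.1 z hz, map_pow, h1.1 z hz, h3.1 z hz, ← pow_mul]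
    refine pow_congr hz ?_
    rw [Units.val_mul, ZMod.val_mul]
    exact Nat.mod_modEq _ _
  · rw [AlgEquiv.mul_apply, h2.2 n z hz, map_pow, h1.2 n z hz, h3.2 n z hz, ← pow_mul,
      ← mul_pow]
    refine pow_congr hz (modEq_pow ?_ n)
    rw [Units.val_mul, ZMod.val_mul]
    exact Nat.mod_modEq _ _

private theorem del_one {p f : ℕ} (hp : p.Prime) (hpf : ¬ p ∣ f) {δ : Gal(Om/ℚ)}
    (h : IsDel p f 1 1 δ) : ∀ z : Om, IsRt p f z → δ z = (1 : Gal(Om/ℚ)) z := by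
  refine eqR hp hpf (fun z hz => ?_) (fun n z hz => ?_)
  · rw [h.1 z hz, AlgEquiv.one_apply]
    conv_rhs => rw [← pow_one z]
    refine pow_congr hz ?_
    rw [Units.val_one, ZMod.val_one_eq_one_mod]
    exact Nat.mod_modEq _ _
  · have : Fact (1 < p) := ⟨hp.one_lt⟩
    rw [h.2 n z hz, AlgEquiv.one_apply, Units.val_one, ZMod.val_one, one_pow, pow_one]

private theorem del_neg {p f : ℕ} (hp : p.Prime) (hp2 : p ≠ 2) (hpf : ¬ p ∣ f) [NeZero f]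
    {δ : Gal(Om/ℚ)} (h : IsDel p f (-1) (-1) δ) : δ ∈ UU p f := by
  have : NeZero p := ⟨hp.ne_zero⟩
  refine Or.inr fun z hz => ?_
  obtain ⟨n, hn⟩ := hz
  obtain ⟨z1, z2, e1, e2, rfl⟩ := decomp hp hpf hn
  rw [map_mul, mul_inv, h.1 z1 e1, h.2 n z2 e2]
  have k1 : z1 ^ ((((-1 : (ZMod f)ˣ) : ZMod f)).val) = z1⁻¹ := by
    refine eq_inv_of_mul_eq_one_left ?_
    rw [← pow_succ]
    refine pow_one_of e1 ?_
    rw [← ZMod.natCast_eq_zero_iff]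
    push_cast
    rw [ZMod.natCast_zmod_val]
    simp
  have k2 : z2 ^ ((((-1 : (ZMod p)ˣ) : ZMod p)).val ^ p ^ n) = z2⁻¹ := by
    refine eq_inv_of_mul_eq_one_left ?_
    rw [← pow_succ]
    refine pow_one_of e2 ?_
    have h1 : (p : ℤ) ∣ (((((-1 : (ZMod p)ˣ) : ZMod p)).val : ℕ) : ℤ) - (-1) := by
      rw [sub_neg_eq_add]
      have h3 : p ∣ (((-1 : (ZMod p)ˣ) : ZMod p)).val + 1 := by
        rw [← ZMod.natCast_eq_zero_iff]
        push_cast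
        rw [ZMod.natCast_zmod_val]
        simp
      exact_mod_cast h3
    have h2 := dvd_sub_pow_of_dvd_sub h1 n
    have hodd : Odd (p ^ n) := (hp.odd_of_ne_two hp2).pow
    rw [hodd.neg_one_pow, sub_neg_eq_add] at h2
    exact_mod_cast h2
  rw [k1, k2]

private theorem gam_pow {p f : ℕ} {γ : Gal(Om/ℚ)} (h : IsGam p f γ) (i : ℕ) :
    (∀ z : Om, z ^ f = 1 → (γ ^ i) z = z) ∧
      ∀ (z : Om) (n : ℕ), z ^ p ^ n = 1 → (γ ^ i) z = z ^ ((1 + p) ^ i) := by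
  induction i with
  | zero =>
    refine ⟨fun z _ => ?_, fun z n _ => ?_⟩
    · rw [pow_zero, AlgEquiv.one_apply]
    · rw [pow_zero, AlgEquiv.one_apply, pow_zero, pow_one]
  | succ i ih =>
    refine ⟨fun z hz => ?_, fun z n hz => ?_⟩
    · have hz' : z ^ (f * p) = 1 := by rw [pow_mul, hz, one_pow]
      rw [pow_succ, AlgEquiv.mul_apply, h.1 z hz', ih.1 z hz]
    · rw [pow_succ, AlgEquiv.mul_apply, h.2 z n hz, map_pow, ih.2 z n hz, ← pow_mul, ← pow_succ]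

private theorem comm {p f : ℕ} (hp : p.Prime) (hpf : ¬ p ∣ f) {b : (ZMod f)ˣ} {η : (ZMod p)ˣ}
    {δ γ : Gal(Om/ℚ)} (hδ : IsDel p f b η δ) (hγ : IsGam p f γ) (i : ℕ) :
    ∀ z : Om, IsRt p f z → (γ ^ i * δ) z = (δ * γ ^ i) z := by
  refine eqR hp hpf (fun z hz => ?_) (fun n z hz => ?_)
  · rw [AlgEquiv.mul_apply, AlgEquiv.mul_apply, (gam_pow hγ i).1 z hz, hδ.1 z hz, map_pow,
      (gam_pow hγ i).1 z hz]
  · rw [AlgEquiv.mul_apply, AlgEquiv.mul_apply, (gam_pow hγ i).2 z (n + 1) hz, hδ.2 n z hz,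
      map_pow, map_pow, (gam_pow hγ i).2 z (n + 1) hz, hδ.2 n z hz, ← pow_mul, ← pow_mul,
      mul_comm]

private theorem gam_fix {p f : ℕ} (hp : p.Prime) (hpf : ¬ p ∣ f) {γ : Gal(Om/ℚ)}
    (hγ : IsGam p f γ) (k : ℕ) (z : Om) (hz : z ^ (f * p ^ k) = 1) :
    ((γ⁻¹) ^ p ^ k) z = z := by
  have h1 : (γ ^ p ^ k) z = z := by
    obtain ⟨z1, z2, e1, e2, rfl⟩ := decomp hp hpf hz
    rw [map_mul, (gam_pow hγ _).1 z1 e1, (gam_pow hγ _).2 z2 (k + 1) e2]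
    congr 1
    conv_rhs => rw [← pow_one z2]
    refine pow_congr e2 ?_
    have h2 : (1 + p) ^ p ^ k ≡ 1 ^ p ^ k [MOD p ^ (k + 1)] := by
      refine modEq_pow ?_ k
      exact Nat.add_modEq_right
    rwa [one_pow] at h2
  have h3 : ((γ⁻¹) ^ p ^ k) ((γ ^ p ^ k) z) = z := by
    rw [← AlgEquiv.mul_apply, inv_pow, inv_mul_cancel, AlgEquiv.one_apply]
  rwa [h1] at h3

/-- The numbers `c = f p + 1`. -/
private theorem c_lt {p f n : ℕ} (hp : p.Prime) (hp2 : p ≠ 2) (hf : 0 < f) (hn : 1 ≤ n) :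
    f * p + 1 < f * p ^ (n + 1) := by
  have h3 : 3 ≤ p := by
    have := hp.two_le
    omega
  have h1 : p ^ 1 ≤ p ^ n := Nat.pow_le_pow_right hp.pos hn
  rw [pow_one] at h1
  have h2 : f * p * 3 ≤ f * p * p ^ n := Nat.mul_le_mul_left _ (h3.trans h1)
  have h4 : 0 < f * p := Nat.mul_pos hf hp.pos
  have h5 : f * p ^ (n + 1) = f * p * p ^ n := by rw [pow_succ]; ring
  rw [h5]
  omega

/-- The twist of a character of `Δ`. -/
private theorem nonv {p f : ℕ} [Fact p.Prime] [NeZero f] (hp2 : p ≠ 2) (hpf : ¬ p ∣ f)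
    (hIx : S_Ix) (hNV : S_NV) {c : ℕ} (hc : 2 ≤ c) (hcop : c.Coprime (f * p))
    (κ : Type) [Field κ] [CharP κ p] (χ : (ZMod f)ˣ × (ZMod p)ˣ →* κˣ) (hχ : χ (-1, -1) = 1) :
    ∃ n i : ℕ, i < p ^ n ∧
      ∑ d : (ZMod f)ˣ × (ZMod p)ˣ, ZMod.castHom (dvd_refl p) κ
        (((wt (f * p ^ (n + 1)) c (ix p f n d.1 d.2 i) : ℤ) : ZMod p) * ((d.2 : ZMod p))⁻¹) *
          (((χ d)⁻¹ : κˣ) : κ) ≠ 0 := by
  have hp : p.Prime := Fact.out
  let u : (ZMod p)ˣ →* κˣ := Units.map (ZMod.castHom (dvd_refl p) κ).toMonoidHom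
  have hu : ∀ η : (ZMod p)ˣ, ((u η : κˣ) : κ) = ZMod.castHom (dvd_refl p) κ (η : ZMod p) :=
    fun η => rfl
  have hun : u (-1) = -1 := by
    apply Units.ext
    rw [hu, Units.val_neg, Units.val_neg, Units.val_one, Units.val_one, map_neg, map_one]
  let χ' : (ZMod f)ˣ × (ZMod p)ˣ →* κˣ := χ * u.comp (MonoidHom.snd _ _)
  have hχ' : ∀ d, χ' d = χ d * u d.2 := fun d => rfl
  have h1 : χ' (-1, -1) = -1 := by rw [hχ', hχ, one_mul, hun]
  obtain ⟨n, i, hni⟩ := hNV p f hp2 hpf c hc hcop κ χ' h1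
  refine ⟨n, i % p ^ n, Nat.mod_lt _ (pow_pos hp.pos n), fun h0 => hni ?_⟩
  rw [← h0, Fintype.sum_prod_type]
  refine Finset.sum_congr rfl fun b _ => Finset.sum_congr rfl fun η _ => ?_
  rw [(hIx p f hp2 hpf n).2.2.1 b η i, hχ', mul_inv, Units.val_mul, Units.val_inv_eq_inv_val,
    Units.val_inv_eq_inv_val, hu, map_mul, map_inv₀, map_intCast]
  ring

end DAsAux

open DAsAux

theorem tDAs : S_DAs := by
  intro hDA hLift hIx hDist hCj hSm hRel hNV hGF p f _ hp2 hf hpf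
  have hp : p.Prime := Fact.out
  have : NeZero f := ⟨hf.ne'⟩
  have hC : ∀ g ∈ VV p (LocO p) (UU p f), ∀ σ : Gal(Om/ℚ),
      (fun τ => g (σ⁻¹ * τ * σ)) ∈ VV p (LocO p) (UU p f) := fun g hg => (hCj p f g hg).1
  have hU : ∀ g ∈ VV p (LocO p) (UU p f), ∀ u ∈ UU p f, (fun τ => g (u⁻¹ * τ * u)) = g :=
    fun g hg => (hCj p f g hg).2
  obtain ⟨hδ0, γ, hγ⟩ := hLift p f hf hpf
  choose δ hδ using hδ0
  -- the representation
  let ρ : Representation (ZMod p) ((ZMod f)ˣ × (ZMod p)ˣ) (VV p (LocO p) (UU p f)) :=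
    { toFun := fun d => RA hC (δ d.1 d.2)
      map_one' := by
        show RA hC (δ 1 1) = 1
        rw [RA_congr hC hU (del_one hp hpf (hδ 1 1)), map_one]
      map_mul' := fun d d' => by
        show RA hC (δ (d.1 * d'.1) (d.2 * d'.2)) = RA hC (δ d.1 d.2) * RA hC (δ d'.1 d'.2)
        rw [← map_mul]
        exact RA_congr hC hU (del_mul hp hpf (hδ d.1 d.2) (hδ d'.1 d'.2)
          (hδ (d.1 * d'.1) (d.2 * d'.2))) }
  have hρ : ∀ d, ρ d = RA hC (δ d.1 d.2) := fun d => rfl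
  have hρi : ∀ d, ρ d⁻¹ = RA hC (δ d.1 d.2)⁻¹ := fun d => by
    have h1 : ρ d⁻¹ * RA hC (δ d.1 d.2) = 1 := by
      rw [← hρ, ← map_mul, inv_mul_cancel, map_one]
    calc ρ d⁻¹ = ρ d⁻¹ * (RA hC (δ d.1 d.2) * RA hC (δ d.1 d.2)⁻¹) := by
          rw [← map_mul (RA hC) (δ d.1 d.2), mul_inv_cancel, map_one, mul_one]
      _ = RA hC (δ d.1 d.2)⁻¹ := by rw [← mul_assoc, h1, one_mul]
  have hc2 : 2 ≤ f * p + 1 := by
    have := Nat.mul_pos hf hp.pos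
    omega
  have hcfp : (f * p + 1).Coprime (f * p) := by simp
  have hcp : (f * p + 1).Coprime p := Nat.Coprime.coprime_mul_left_right hcfp
  refine hDA p ((ZMod f)ˣ × (ZMod p)ˣ) (VV p (LocO p) (UU p f)) ρ (RA hC γ⁻¹)
    (fun n i d => ((wt (f * p ^ (n + 1)) (f * p + 1) (ix p f n d.1 d.2 i) : ℤ) : ZMod p) *
      ((d.2 : ZMod p))⁻¹) (-1, -1) ?_ ?_ ?_ ?_ ?_ ?_ ?_
  · -- commutation
    intro d x
    have h1 : RA hC (γ * δ d.1 d.2) = RA hC (δ d.1 d.2 * γ) := by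
      have h2 := RA_congr hC hU (comm hp hpf (hδ d.1 d.2) hγ 1)
      rwa [pow_one] at h2
    rw [map_mul, map_mul] at h1
    have h3 : RA hC γ⁻¹ * RA hC γ = 1 := by rw [← map_mul, inv_mul_cancel, map_one]
    have h4 : RA hC γ * RA hC γ⁻¹ = 1 := by rw [← map_mul, mul_inv_cancel, map_one]
    have h5 : RA hC (δ d.1 d.2) * RA hC γ⁻¹ = RA hC γ⁻¹ * RA hC (δ d.1 d.2) := by
      calc RA hC (δ d.1 d.2) * RA hC γ⁻¹
          = RA hC γ⁻¹ * (RA hC γ * RA hC (δ d.1 d.2)) * RA hC γ⁻¹ := by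
            rw [← mul_assoc (RA hC γ⁻¹) (RA hC γ), h3, one_mul]
        _ = RA hC γ⁻¹ * RA hC (δ d.1 d.2) := by
            rw [h1, mul_assoc, mul_assoc, h4, mul_one]
    exact LinearMap.congr_fun h5 x
  · -- `j` acts trivially
    intro x
    have h1 : ρ (-1, -1) = 1 := RA_U hC hU (del_neg hp hp2 hpf (hδ (-1) (-1)))
    rw [h1]
    rfl
  · -- unipotence
    intro x
    have hx : x.1 ∈ VV p ∅ (UU p f) := ⟨x.2.1, x.2.2.1, x.2.2.2.1, fun Λ hΛ => hΛ.elim⟩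
    obtain ⟨k, hk⟩ := hSm p f x.1 hx
    refine ⟨k, ?_⟩
    rw [← map_pow]
    refine Subtype.ext (funext fun τ => ?_)
    by_cases hτ : τ ∈ UU p f
    · exact hk _ (gam_fix hp hpf hγ k) τ hτ
    · rw [(RA hC (γ⁻¹ ^ p ^ k) x).2.1 τ hτ, x.2.1 τ hτ]
  · -- fixed points
    refine ((hGF p f hp2 hf hpf γ hγ).preimage Subtype.val_injective.injOn).subset ?_
    intro x hx
    refine ⟨x.2, fun τ _ => ?_⟩
    have h1 : (RA hC γ⁻¹ x).1 (γ⁻¹ * τ * γ) = x.1 (γ⁻¹ * τ * γ) := by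
      rw [show RA hC γ⁻¹ x = x from hx]
    rw [RA_apply, inv_inv] at h1
    rw [← h1]
    group
  · -- compatibility
    intro n i d hi
    show ∑ k ∈ Finset.range p, ((wt (f * p ^ (n + 1 + 1)) (f * p + 1)
      (ix p f (n + 1) d.1 d.2 (i + p ^ n * k)) : ℤ) : ZMod p) * ((d.2 : ZMod p))⁻¹ = _
    rw [← Finset.sum_mul, ← Int.cast_sum,
      hDist p f hp2 hpf (f * p + 1) (by omega) hcp n d.1 d.2 i hi]
  · -- the relation
    intro x
    obtain ⟨n', hn'⟩ := hRel p f hp2 hpf δ γ hδ hγ (f * p + 1) hc2 x.1 x.2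
    refine ⟨max n' 1, fun n hn => ?_⟩
    have hn1 := hn' n (le_trans (le_max_left _ _) hn)
      (c_lt hp hp2 hf (le_trans (le_max_right _ _) hn))
    refine Subtype.ext (funext fun τ => ?_)
    by_cases hτ : τ ∈ UU p f
    · have hev : ∀ y : VV p (LocO p) (UU p f), y.1 τ =
          ((LinearMap.proj τ).comp (Submodule.subtype (VV p (LocO p) (UU p f))) :
            VV p (LocO p) (UU p f) →ₗ[ZMod p] ZMod p) y := fun y => rfl
      rw [hev, map_sum]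
      show _ = (0 : ZMod p)
      rw [← hn1 τ hτ]
      refine Finset.sum_congr rfl fun i _ => ?_
      rw [map_sum, Fintype.sum_prod_type]
      refine Finset.sum_congr rfl fun b _ => Finset.sum_congr rfl fun η _ => ?_
      rw [map_smul, ← hev, smul_eq_mul, mul_assoc]
      congr 2
      have h1 : RA hC (γ ^ i * δ b η)⁻¹ = RA hC (δ b η * γ ^ i)⁻¹ :=
        inv_congr (RA hC) (RA_congr hC hU (comm hp hpf (hδ b η) hγ i))
      have h2 : ρ (b, η)⁻¹ ((RA hC γ⁻¹ ^ i) x) = RA hC (δ b η * γ ^ i)⁻¹ x := by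
        rw [← h1, hρi, ← map_pow, inv_pow, mul_inv_rev, map_mul]
        rfl
      rw [h2, RA_apply, inv_inv]
    · rw [Submodule.coe_zero, Pi.zero_apply]
      exact (∑ i ∈ Finset.range (p ^ n), ∑ d : (ZMod f)ˣ × (ZMod p)ˣ,
        (((wt (f * p ^ (n + 1)) (f * p + 1) (ix p f n d.1 d.2 i) : ℤ) : ZMod p) *
      ((d.2 : ZMod p))⁻¹) • ρ d⁻¹ ((RA hC γ⁻¹ ^ i) x)).2.1 τ hτ
  · -- non-vanishing
    intro κ _ _ χ hχ
    exact nonv hp2 hpf hIx hNV hc2 hcfp κ χ hχ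

end Pool.Agent.FW
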