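import Pool.Agent.Lib.FW.SpecD

open scoped Pointwise

noncomputable section

namespace Pool.Agent.FW

open Pool.Agent.MuZ

namespace DistAux

theorem perm (p : ℕ) (g : ℕ → ℕ) (hg : ∀ k < p, g k < p)
    (hinj : ∀ k < p, ∀ k' < p, g k = g k' → k = k') (F : ℕ → ℤ) :
    ∑ k ∈ Finset.range p, F (g k) = ∑ k ∈ Finset.range p, F k := by
  have hi : Set.InjOn g (Finset.range p : Set ℕ) := by
    intro k hk k' hk' h
    rw [Finset.mem_coe, Finset.mem_range] at hk hk'
    exact hinj k hk k' hk' h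
  have himg : (Finset.range p).image g = Finset.range p := by
    apply Finset.eq_of_subset_of_card_le
    · intro x hx
      rw [Finset.mem_image] at hx
      obtain ⟨k, hk, rfl⟩ := hx
      exact Finset.mem_range.2 (hg k (Finset.mem_range.1 hk))
    · rw [Finset.card_image_of_injOn hi]
  rw [← Finset.sum_image (f := F) hi, himg]

theorem sumdiv (p c N : ℕ) (hp : p.Prime) (hc : c.Coprime p) :
    2 * ∑ k ∈ Finset.range p, (((N + c * k) / p : ℕ) : ℤ) =
      2 * (N : ℤ) + ((c : ℤ) - 1) * ((p : ℤ) - 1) := by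
  have hp0 : (p : ℤ) ≠ 0 := by exact_mod_cast hp.pos.ne'
  have h1 : ∑ k ∈ Finset.range p, (((N + c * k) % p : ℕ) : ℤ) = ∑ k ∈ Finset.range p, (k : ℤ) := by
    refine perm p (fun k => (N + c * k) % p) (fun k _ => Nat.mod_lt _ hp.pos) ?_ (fun k => (k : ℤ))
    intro k hk k' hk' h
    have h2 : N + c * k ≡ N + c * k' [MOD p] := h
    have h3 : c * k ≡ c * k' [MOD p] := Nat.ModEq.add_left_cancel' N h2
    have h4 : k ≡ k' [MOD p] := Nat.ModEq.cancel_left_of_coprime (by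
      rw [Nat.gcd_comm]
      exact hc) h3
    exact Nat.ModEq.eq_of_lt_of_lt h4 hk hk'
  have h2 : (∑ k ∈ Finset.range p, (k : ℤ)) * 2 = (p : ℤ) * ((p : ℤ) - 1) := by
    have h3 := Finset.sum_range_id_mul_two p
    have h4 : (((∑ k ∈ Finset.range p, k) * 2 : ℕ) : ℤ) = ((p * (p - 1) : ℕ) : ℤ) := by rw [h3]
    push_cast [Nat.cast_sub hp.one_le] at h4
    exact h4
  have h3 : ∑ k ∈ Finset.range p, ((N : ℤ) + c * k) =
      (p : ℤ) * ∑ k ∈ Finset.range p, (((N + c * k) / p : ℕ) : ℤ) +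
        ∑ k ∈ Finset.range p, (((N + c * k) % p : ℕ) : ℤ) := by
    rw [Finset.mul_sum, ← Finset.sum_add_distrib]
    refine Finset.sum_congr rfl fun k _ => ?_
    have h4 := Nat.div_add_mod (N + c * k) p
    have h5 : (((N + c * k : ℕ)) : ℤ) = ((p * ((N + c * k) / p) + (N + c * k) % p : ℕ) : ℤ) := by
      rw [h4]
    push_cast at h5 ⊢
    exact h5
  have h4 : ∑ k ∈ Finset.range p, ((N : ℤ) + c * k) =
      (p : ℤ) * N + c * ∑ k ∈ Finset.range p, (k : ℤ) := by
    rw [Finset.sum_add_distrib, Finset.sum_const, Finset.card_range, Finset.mul_sum, nsmul_eq_mul]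
  rw [h4, h1] at h3
  have h5 : (p : ℤ) * (2 * ∑ k ∈ Finset.range p, (((N + c * k) / p : ℕ) : ℤ)) =
      (p : ℤ) * (2 * (N : ℤ) + ((c : ℤ) - 1) * ((p : ℤ) - 1)) := by
    linear_combination (-2) * h3 + ((c : ℤ) - 1) * h2
  exact mul_left_cancel₀ hp0 h5

theorem tei (p h n : ℕ) (hp : p.Prime) : h ^ p ^ (n + 1) ≡ h ^ p ^ n [MOD p ^ (n + 1)] := by
  have : Fact p.Prime := ⟨hp⟩
  have h1 : (p : ℤ) ∣ ((h : ℤ) ^ p) - (h : ℤ) := by
    have h2 : (((h : ℤ) : ZMod p)) ^ p = ((h : ℤ) : ZMod p) := ZMod.pow_card _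
    rw [← Int.cast_pow] at h2
    exact (ZMod.intCast_eq_intCast_iff_dvd_sub _ _ _).1 h2.symm
  have h3 := dvd_sub_pow_of_dvd_sub h1 n
  refine Nat.ModEq.symm (Nat.modEq_iff_dvd.2 ?_)
  push_cast
  rw [← pow_mul, ← pow_succ'] at h3
  exact h3

theorem one_pow_mod (p n : ℕ) : (1 + p) ^ p ^ n ≡ 1 [MOD p ^ (n + 1)] := by
  have h1 : (p : ℤ) ∣ ((1 + p : ℕ) : ℤ) - 1 := by
    push_cast
    simp
  have h3 := dvd_sub_pow_of_dvd_sub h1 n
  rw [one_pow] at h3
  refine Nat.ModEq.symm (Nat.modEq_iff_dvd.2 ?_)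
  push_cast at h3 ⊢
  exact h3

theorem ix_spec (p f : ℕ) [Fact p.Prime] [NeZero f] (hpf : ¬ p ∣ f) (n : ℕ) (b : (ZMod f)ˣ)
    (η : (ZMod p)ˣ) (i : ℕ) :
    ix p f n b η i < f * p ^ (n + 1) ∧ ix p f n b η i ≡ (b : ZMod f).val [MOD f] ∧
      ix p f n b η i ≡ (η : ZMod p).val ^ p ^ n * (1 + p) ^ i [MOD p ^ (n + 1)] := by
  have hp : p.Prime := Fact.out
  have hfp : f.Coprime (p ^ (n + 1)) :=
    Nat.Coprime.pow_right _ ((Nat.Prime.coprime_iff_not_dvd hp).2 hpf).symm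
  unfold ix
  rw [dif_pos hfp]
  exact ⟨Nat.chineseRemainder_lt_mul _ _ _ (NeZero.ne f) (pow_pos hp.pos _).ne',
    (Nat.chineseRemainder hfp _ _).2.1, (Nat.chineseRemainder hfp _ _).2.2⟩

end DistAux

open DistAux in
theorem tDist : S_Dist := by
  intro p f hpF hf0 hp2 hpf c hc0 hcp n b η i hi
  have hp : p.Prime := hpF.out
  set m := f * p ^ (n + 1) with hm
  have hm0 : 0 < m := Nat.mul_pos (Nat.pos_of_ne_zero (NeZero.ne f)) (pow_pos hp.pos _)
  have hmp : f * p ^ (n + 1 + 1) = m * p := by rw [hm, pow_succ p (n + 1), mul_assoc]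
  obtain ⟨ha, haf, hap⟩ := ix_spec p f hpf n b η i
  set a := ix p f n b η i with hadef
  have hfp : f.Coprime (p ^ (n + 1)) :=
    Nat.Coprime.pow_right _ ((Nat.Prime.coprime_iff_not_dvd hp).2 hpf).symm
  -- the numbers a_j
  have haj : ∀ j, ix p f (n + 1) b η (i + p ^ n * j) ≡ a [MOD m] := by
    intro j
    obtain ⟨-, h1, h2⟩ := ix_spec p f hpf (n + 1) b η (i + p ^ n * j)
    rw [hm, ← Nat.modEq_and_modEq_iff_modEq_mul hfp]
    refine ⟨h1.trans haf.symm, ?_⟩
    have h3 := h2.of_dvd (pow_dvd_pow p (Nat.le_succ (n + 1)))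
    refine h3.trans (Nat.ModEq.trans ?_ hap.symm)
    refine Nat.ModEq.mul (tei p _ n hp) ?_
    have h4 := ((one_pow_mod p n).pow j).mul_left ((1 + p) ^ i)
    rw [one_pow, mul_one, ← pow_mul, ← pow_add] at h4
    exact h4
  have hajlt : ∀ j, ix p f (n + 1) b η (i + p ^ n * j) < m * p := by
    intro j
    rw [← hmp]
    exact (ix_spec p f hpf (n + 1) b η (i + p ^ n * j)).1
  let g : ℕ → ℕ := fun j => ix p f (n + 1) b η (i + p ^ n * j) / m
  have hg : ∀ j, ix p f (n + 1) b η (i + p ^ n * j) = a + m * g j := by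
    intro j
    have h1 := Nat.div_add_mod (ix p f (n + 1) b η (i + p ^ n * j)) m
    have h2 : ix p f (n + 1) b η (i + p ^ n * j) % m = a := by
      have h3 : ix p f (n + 1) b η (i + p ^ n * j) % m = a % m := haj j
      rw [h3, Nat.mod_eq_of_lt ha]
    rw [h2] at h1
    show _ = a + m * (ix p f (n + 1) b η (i + p ^ n * j) / m)
    omega
  have hglt : ∀ j < p, g j < p := by
    intro j _
    exact Nat.div_lt_of_lt_mul (hajlt j)
  have hginj : ∀ j < p, ∀ j' < p, g j = g j' → j = j' := by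
    intro j hj j' hj' h
    have h1 : ix p f (n + 1) b η (i + p ^ n * j) = ix p f (n + 1) b η (i + p ^ n * j') := by
      rw [hg j, hg j', h]
    obtain ⟨-, -, h2⟩ := ix_spec p f hpf (n + 1) b η (i + p ^ n * j)
    obtain ⟨-, -, h3⟩ := ix_spec p f hpf (n + 1) b η (i + p ^ n * j')
    rw [h1] at h2
    have h4 := h2.symm.trans h3
    have hco : Nat.gcd (p ^ (n + 1 + 1)) ((η : ZMod p).val ^ p ^ (n + 1)) = 1 := by
      rw [Nat.gcd_comm]
      exact Nat.Coprime.pow _ _ (ZMod.val_coe_unit_coprime η)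
    have h5 := Nat.ModEq.cancel_left_of_coprime hco h4
    have h6 : ((1 + p : ℕ) : ZMod (p ^ (n + 1 + 1))) ^ (i + p ^ n * j) =
        ((1 + p : ℕ) : ZMod (p ^ (n + 1 + 1))) ^ (i + p ^ n * j') := by
      have h7 := (ZMod.natCast_eq_natCast_iff _ _ _).2 h5
      rw [Nat.cast_pow, Nat.cast_pow] at h7
      exact h7
    have hord : orderOf ((1 + p : ℕ) : ZMod (p ^ (n + 1 + 1))) = p ^ (n + 1) := by
      have := ZMod.orderOf_one_add_prime hp hp2 (n + 1)
      rw [Nat.cast_add, Nat.cast_one]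
      exact this
    have hlt : ∀ j < p, i + p ^ n * j < p ^ (n + 1) := by
      intro j hj
      have h8 : p ^ n * j + p ^ n ≤ p ^ n * p := by
        rw [← Nat.mul_succ]
        exact Nat.mul_le_mul_left _ hj
      rw [pow_succ]
      omega
    have h9 : i + p ^ n * j = i + p ^ n * j' := by
      apply pow_injOn_Iio_orderOf (x := ((1 + p : ℕ) : ZMod (p ^ (n + 1 + 1))))
      · rw [Set.mem_Iio, hord]
        exact hlt j hj
      · rw [Set.mem_Iio, hord]
        exact hlt j' hj'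
      · exact h6
    have h10 : p ^ n * j = p ^ n * j' := by omega
    exact Nat.eq_of_mul_eq_mul_left (pow_pos hp.pos n) h10
  rw [hmp]
  have hS : ∑ j ∈ Finset.range p, wt (m * p) c (ix p f (n + 1) b η (i + p ^ n * j)) =
      ∑ k ∈ Finset.range p, wt (m * p) c (a + m * k) := by
    rw [← perm p g hglt hginj (fun k => wt (m * p) c (a + m * k))]
    refine Finset.sum_congr rfl fun j _ => ?_
    rw [hg j]
  rw [hS]
  have hN : ∀ k, c * (a + m * k) / (m * p) = (c * a / m + c * k) / p := by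
    intro k
    rw [← Nat.div_div_eq_div_mul]
    congr 1
    have : c * (a + m * k) = c * a + (c * k) * m := by ring
    rw [this, Nat.add_mul_div_right _ _ hm0]
  have h1 := sumdiv p c (c * a / m) hp hcp
  unfold wt
  rw [Finset.sum_sub_distrib, ← Finset.mul_sum, Finset.sum_const, Finset.card_range,
    nsmul_eq_mul]
  have h2 : ∑ k ∈ Finset.range p, ((c * (a + m * k) / (m * p) : ℕ) : ℤ) =
      ∑ k ∈ Finset.range p, (((c * a / m + c * k) / p : ℕ) : ℤ) :=
    Finset.sum_congr rfl fun k _ => by rw [hN k]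
  rw [h2, h1]
  ring

end Pool.Agent.FW
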