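import Pool.Agent.Lib.FW.SpecD

open scoped Pointwise

noncomputable section

namespace Pool.Agent.FW

open Pool.Agent.MuZ

namespace FinMAux

theorem step {R V : Type} [CommRing R] [Finite R] [AddCommGroup V] [Module R V] (m I : Ideal R)
    (hm : {x : V | ∀ a ∈ m, a • x = 0}.Finite) (hI : {x : V | ∀ a ∈ I, a • x = 0}.Finite) :
    {x : V | ∀ a ∈ m * I, a • x = 0}.Finite := by
  let f : V → (m → V) := fun x a => (a : R) • x
  have hs : (Set.pi Set.univ (fun _ : m => {x : V | ∀ a ∈ I, a • x = 0})).Finite :=
    Set.Finite.pi fun _ => hI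
  have hfib : ∀ b ∈ Set.pi Set.univ (fun _ : m => {x : V | ∀ a ∈ I, a • x = 0}),
      (f ⁻¹' {b}).Finite := by
    intro b _
    rcases Set.eq_empty_or_nonempty (f ⁻¹' {b}) with h | ⟨x0, hx0⟩
    · rw [h]
      exact Set.finite_empty
    · refine (hm.image (fun y => x0 + y)).subset ?_
      intro y hy
      refine ⟨y - x0, ?_, by abel⟩
      intro a ha
      have h1 : f y ⟨a, ha⟩ = f x0 ⟨a, ha⟩ := by
        rw [Set.mem_preimage, Set.mem_singleton_iff] at hy hx0
        rw [hy, hx0]
      have h2 : a • y = a • x0 := h1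
      rw [smul_sub, h2, sub_self]
  refine (hs.preimage' hfib).subset ?_
  intro x hx
  rw [Set.mem_preimage, Set.mem_univ_pi]
  intro a b hb
  show b • ((a : R) • x) = 0
  rw [smul_smul, mul_comm]
  exact hx _ (Ideal.mul_mem_mul a.2 hb)

end FinMAux

theorem tFinM : S_FinM := by
  intro R V _ _ _ _ hmax
  have key : ∀ Z : Multiset (PrimeSpectrum R),
      {x : V | ∀ a ∈ (Z.map PrimeSpectrum.asIdeal).prod, a • x = 0}.Finite := by
    intro Z
    induction Z using Multiset.induction_on with
    | empty =>
      refine (Set.finite_singleton (0 : V)).subset ?_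
      intro x hx
      have h := hx 1 (by simp)
      rw [one_smul] at h
      exact h
    | cons P Z ih =>
      rw [Multiset.map_cons, Multiset.prod_cons]
      refine FinMAux.step _ _ (hmax _ ?_) ih
      haveI := P.2
      haveI : IsArtinianRing R := inferInstance
      infer_instance
  obtain ⟨Z, hZ⟩ := PrimeSpectrum.exists_primeSpectrum_prod_le R (⊥ : Ideal R)
  have h := key Z
  have huniv : {x : V | ∀ a ∈ (Z.map PrimeSpectrum.asIdeal).prod, a • x = 0} = Set.univ := by
    ext x
    simp only [Set.mem_setOf_eq, Set.mem_univ, iff_true]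
    intro a ha
    have h0 : a = 0 := by
      have := hZ ha
      simpa using this
    rw [h0, zero_smul]
  rw [huniv] at h
  exact Set.finite_univ_iff.mp h

end Pool.Agent.FW
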