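import Pool.Agent.Lib.FW.SpecD

/-! The index. -/

noncomputable section

namespace Pool.Agent.FW

open Pool.Agent.MuZ

namespace IxAux

variable {p f : ℕ} [Fact p.Prime] [NeZero f]

omit [NeZero f] in
theorem cop (hpf : ¬ p ∣ f) (n : ℕ) : f.Coprime (p ^ (n + 1)) :=
  Nat.Coprime.pow_right _ (((Nat.Prime.coprime_iff_not_dvd Fact.out).2 hpf).symm)

/-- The residue modulo `p ^ (n + 1)`. -/
def EE (p n : ℕ) (η : (ZMod p)ˣ) (i : ℕ) : ℕ := (η : ZMod p).val ^ p ^ n * (1 + p) ^ i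

theorem spec (hpf : ¬ p ∣ f) (n : ℕ) (b : (ZMod f)ˣ) (η : (ZMod p)ˣ) (i : ℕ) :
    ix p f n b η i ≡ (b : ZMod f).val [MOD f] ∧ ix p f n b η i ≡ EE p n η i [MOD p ^ (n + 1)] ∧
      ix p f n b η i < f * p ^ (n + 1) := by
  have h := cop hpf n
  unfold ix EE
  rw [dif_pos h]
  refine ⟨(Nat.chineseRemainder h _ _).2.1, (Nat.chineseRemainder h _ _).2.2,
    Nat.chineseRemainder_lt_mul h _ _ (NeZero.ne f) (pow_ne_zero _ (Fact.out : p.Prime).ne_zero)⟩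

theorem uniq (hpf : ¬ p ∣ f) (n : ℕ) (b : (ZMod f)ˣ) (η : (ZMod p)ˣ) (i a : ℕ)
    (h1 : a ≡ (b : ZMod f).val [MOD f]) (h2 : a ≡ EE p n η i [MOD p ^ (n + 1)])
    (h3 : a < f * p ^ (n + 1)) : a = ix p f n b η i := by
  obtain ⟨k1, k2, k3⟩ := spec hpf n b η i
  refine Nat.ModEq.eq_of_lt_of_lt ?_ h3 k3
  exact (Nat.modEq_and_modEq_iff_modEq_mul (cop hpf n)).1 ⟨h1.trans k1.symm, h2.trans k2.symm⟩

theorem EE_cop (n : ℕ) (η : (ZMod p)ˣ) (i : ℕ) : (EE p n η i).Coprime (p ^ (n + 1)) := by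
  unfold EE
  refine Nat.Coprime.pow_right _ (Nat.Coprime.mul_left ?_ ?_)
  · exact Nat.Coprime.pow_left _ (ZMod.val_coe_unit_coprime η)
  · refine Nat.Coprime.pow_left _ ?_
    simp

theorem EE_mod (n : ℕ) (η : (ZMod p)ˣ) (i : ℕ) : ((EE p n η i : ℕ) : ZMod p) = (η : ZMod p) := by
  unfold EE
  push_cast
  rw [ZMod.natCast_zmod_val, ZMod.pow_card_pow, CharP.cast_eq_zero, add_zero, one_pow, mul_one]

theorem ix_mod (hpf : ¬ p ∣ f) (n : ℕ) (b : (ZMod f)ˣ) (η : (ZMod p)ˣ) (i : ℕ) :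
    ((ix p f n b η i : ℕ) : ZMod p) = (η : ZMod p) := by
  obtain ⟨k1, k2, k3⟩ := spec hpf n b η i
  rw [← EE_mod n η i, ZMod.natCast_eq_natCast_iff]
  exact k2.of_dvd (dvd_pow_self p (Nat.succ_ne_zero n))

theorem ord (hp2 : p ≠ 2) (n : ℕ) : orderOf (1 + p : ZMod (p ^ (n + 1))) = p ^ n :=
  ZMod.orderOf_one_add_prime Fact.out hp2 n

theorem EE_period (hp2 : p ≠ 2) (n : ℕ) (η : (ZMod p)ˣ) (i : ℕ) :
    EE p n η (i % p ^ n) ≡ EE p n η i [MOD p ^ (n + 1)] := by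
  rw [← ZMod.natCast_eq_natCast_iff]
  unfold EE
  push_cast
  have h := pow_mod_orderOf (1 + p : ZMod (p ^ (n + 1))) i
  rw [ord hp2] at h
  rw [h]

theorem inj (hp2 : p ≠ 2) (hpf : ¬ p ∣ f) (n : ℕ) (b : (ZMod f)ˣ) (η : (ZMod p)ˣ)
    (b' : (ZMod f)ˣ) (η' : (ZMod p)ˣ) (i i' : ℕ) (hi : i < p ^ n) (hi' : i' < p ^ n)
    (h : ix p f n b η i = ix p f n b' η' i') : b = b' ∧ η = η' ∧ i = i' := by
  obtain ⟨k1, k2, k3⟩ := spec hpf n b η i
  obtain ⟨l1, l2, l3⟩ := spec hpf n b' η' i'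
  have hb : b = b' := by
    apply Units.ext
    apply ZMod.val_injective f
    rw [h] at k1
    exact Nat.ModEq.eq_of_lt_of_lt (k1.symm.trans l1) (ZMod.val_lt _) (ZMod.val_lt _)
  have hη : η = η' := by
    apply Units.ext
    rw [← ix_mod hpf n b η i, h, ix_mod hpf n b' η' i']
  refine ⟨hb, hη, ?_⟩
  subst hη
  rw [h] at k2
  have h1 : EE p n η i ≡ EE p n η i' [MOD p ^ (n + 1)] := k2.symm.trans l2
  unfold EE at h1
  have h2 : (1 + p) ^ i ≡ (1 + p) ^ i' [MOD p ^ (n + 1)] := by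
    refine Nat.ModEq.cancel_left_of_coprime ?_ h1
    rw [Nat.gcd_comm]
    exact Nat.Coprime.pow_right _ (Nat.Coprime.pow_left _ (ZMod.val_coe_unit_coprime η))
  rw [← ZMod.natCast_eq_natCast_iff] at h2
  push_cast at h2
  have h3 := pow_injOn_Iio_orderOf (x := (1 + p : ZMod (p ^ (n + 1))))
  rw [ord hp2] at h3
  exact h3 hi hi' h2

theorem mem (hpf : ¬ p ∣ f) (n : ℕ) (b : (ZMod f)ˣ) (η : (ZMod p)ˣ) (i : ℕ) :
    ix p f n b η i ∈ Un (f * p ^ (n + 1)) := by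
  obtain ⟨k1, k2, k3⟩ := spec hpf n b η i
  unfold Un
  rw [Finset.mem_filter, Finset.mem_range]
  refine ⟨k3, Nat.Coprime.mul_right ?_ ?_⟩
  · unfold Nat.Coprime
    rw [k1.gcd_eq]
    exact ZMod.val_coe_unit_coprime b
  · unfold Nat.Coprime
    rw [k2.gcd_eq]
    exact EE_cop n η i

theorem card_Un (m : ℕ) : (Un m).card = m.totient := by
  unfold Un Nat.totient
  congr 1
  exact Finset.filter_congr fun a _ => Nat.coprime_comm

theorem surj (hp2 : p ≠ 2) (hpf : ¬ p ∣ f) (n a : ℕ) (ha : a ∈ Un (f * p ^ (n + 1))) :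
    ∃ b η i, i < p ^ n ∧ ix p f n b η i = a := by
  classical
  obtain ⟨S, hS⟩ : ∃ S : Finset ((ZMod f)ˣ × (ZMod p)ˣ × ℕ),
    S = Finset.univ ×ˢ (Finset.univ ×ˢ Finset.range (p ^ n)) := ⟨_, rfl⟩
  have h1 : S.image (fun x => ix p f n x.1 x.2.1 x.2.2) ⊆ Un (f * p ^ (n + 1)) := by
    intro y hy
    rw [Finset.mem_image] at hy
    obtain ⟨x, -, rfl⟩ := hy
    exact mem hpf n _ _ _
  have h2 : (S.image (fun x => ix p f n x.1 x.2.1 x.2.2)).card = S.card := by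
    refine Finset.card_image_of_injOn ?_
    rintro ⟨b, η, i⟩ hx ⟨b', η', i'⟩ hy hxy
    rw [hS, Finset.mem_coe, Finset.mem_product, Finset.mem_product, Finset.mem_range] at hx hy
    obtain ⟨e1, e2, e3⟩ := inj hp2 hpf n b η b' η' i i' hx.2.2 hy.2.2 hxy
    rw [e1, e2, e3]
  have h3 : S.card = (Un (f * p ^ (n + 1))).card := by
    rw [card_Un, hS, Finset.card_product, Finset.card_product, Finset.card_univ, Finset.card_univ,
      Finset.card_range, ZMod.card_units_eq_totient, ZMod.card_units_eq_totient,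
      Nat.totient_mul (cop hpf n),
      Nat.totient_prime_pow (Fact.out : p.Prime) (Nat.succ_pos n),
      Nat.totient_prime (Fact.out : p.Prime), Nat.succ_sub_one]
    ring
  have h4 := Finset.eq_of_subset_of_card_le h1 (by rw [h2, h3])
  rw [← h4, Finset.mem_image] at ha
  obtain ⟨⟨b, η, i⟩, hx, rfl⟩ := ha
  rw [hS, Finset.mem_product, Finset.mem_product, Finset.mem_range] at hx
  exact ⟨b, η, i, hx.2.2, rfl⟩

theorem act (hpf : ¬ p ∣ f) (n : ℕ) (b : (ZMod f)ˣ) (η : (ZMod p)ˣ) (i : ℕ)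
    (δ γ : Gal(Om/ℚ)) (hδ : IsDel p f b η δ) (hγ : IsGam p f γ) (z : Om)
    (hz : z ^ (f * p ^ (n + 1)) = 1) : (δ * γ ^ i) z = z ^ ix p f n b η i := by
  obtain ⟨k1, k2, k3⟩ := spec hpf n b η i
  have hc := cop hpf n
  obtain ⟨a1, ha1, ha1'⟩ := Nat.chineseRemainder hc 1 0
  obtain ⟨a2, ha2, ha2'⟩ := Nat.chineseRemainder hc 0 1
  have hz1 : (z ^ a1) ^ f = 1 := by
    obtain ⟨c, hc'⟩ := (Nat.modEq_zero_iff_dvd.1 ha1')
    rw [← pow_mul, hc', mul_comm, mul_comm (p ^ (n + 1)) c, ← mul_assoc, mul_comm f c, mul_assoc,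
      mul_comm c, pow_mul, hz, one_pow]
  have hz2 : (z ^ a2) ^ p ^ (n + 1) = 1 := by
    obtain ⟨c, hc'⟩ := (Nat.modEq_zero_iff_dvd.1 ha2)
    rw [← pow_mul, hc', mul_assoc, mul_comm c, ← mul_assoc, pow_mul, hz, one_pow]
  have hzz : z = z ^ a1 * z ^ a2 := by
    rw [← pow_add]
    have h1 : a1 + a2 ≡ 1 [MOD f * p ^ (n + 1)] := by
      refine (Nat.modEq_and_modEq_iff_modEq_mul hc).1 ⟨?_, ?_⟩
      · exact Nat.ModEq.add ha1 ha2
      · have h2 := Nat.ModEq.add ha1' ha2'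
        rw [zero_add] at h2
        exact h2
    rw [pow_eq_pow_of_modEq h1 hz, pow_one]
  obtain ⟨y, hy⟩ : ∃ y, y = z ^ a1 := ⟨_, rfl⟩
  obtain ⟨w, hw⟩ : ∃ w, w = z ^ a2 := ⟨_, rfl⟩
  rw [← hy] at hz1
  rw [← hw] at hz2
  rw [← hy, ← hw] at hzz
  have e1 : (γ ^ i) y = y := by
    have h1 : γ y = y := hγ.1 y (by rw [pow_mul, hz1, one_pow])
    induction i with
    | zero => rfl
    | succ i ih =>
      rw [pow_succ, AlgEquiv.mul_apply, h1]
      exact ih (spec hpf n b η i).1 (spec hpf n b η i).2.1 (spec hpf n b η i).2.2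
  have e2 : ∀ j : ℕ, (γ ^ j) w = w ^ (1 + p) ^ j := by
    intro j
    induction j with
    | zero => simp
    | succ j ih =>
      rw [pow_succ, AlgEquiv.mul_apply, hγ.2 w (n + 1) hz2, map_pow, ih, ← pow_mul, ← pow_succ]
  rw [hzz, AlgEquiv.mul_apply, map_mul, map_mul, e1, e2, map_pow, hδ.1 y hz1, hδ.2 n w hz2,
    mul_pow, ← pow_mul]
  congr 1
  · exact (pow_eq_pow_of_modEq k1 hz1).symm
  · exact (pow_eq_pow_of_modEq k2 hz2).symm

end IxAux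

open IxAux

theorem tIx : S_Ix := by
  intro p f _ _ hp2 hpf n
  refine ⟨fun b η i => mem hpf n b η i, fun b η i => ix_mod hpf n b η i, fun b η i => ?_,
    fun b η b' η' i i' hi hi' h => inj hp2 hpf n b η b' η' i i' hi hi' h,
    fun a ha => surj hp2 hpf n a ha, fun b η i δ γ hδ hγ z hz => act hpf n b η i δ γ hδ hγ z hz⟩
  obtain ⟨k1, k2, k3⟩ := spec hpf n b η (i % p ^ n)
  exact uniq hpf n b η i _ k1 (k2.trans (EE_period hp2 n η i)) k3

end Pool.Agent.FW
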