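import Pool.Agent.Lib.FW.SpecD

/-! The polynomial argument. -/

noncomputable section

namespace Pool.Agent.FW

open Pool.Agent.MuZ Polynomial

namespace PolAux

theorem sum_split {M : Type} [AddCommMonoid M] (f : ℕ → M) (N m : ℕ) :
    ∑ i ∈ Finset.range (N * m), f i =
      ∑ j ∈ Finset.range m, ∑ i ∈ Finset.range N, f (i + N * j) := by
  induction m with
  | zero => simp
  | succ m ih =>
    rw [Finset.sum_range_succ, ← ih, Nat.mul_succ, Finset.sum_range_add]
    congr 1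
    exact Finset.sum_congr rfl fun i _ => by rw [add_comm]

variable {p : ℕ} [Fact p.Prime] {κ : Type} [Field κ] [CharP κ p]

theorem pow_eq (n : ℕ) : ((X : κ[X]) - C 1) ^ p ^ n = X ^ p ^ n - 1 := by
  rw [sub_pow_char_pow, ← C_pow, one_pow, C_1]

/-- The polynomials. -/
def P (p : ℕ) (c : ℕ → ℕ → κ) (n : ℕ) : κ[X] := ∑ i ∈ Finset.range (p ^ n), C (c n i) * X ^ i

omit [Fact p.Prime] [CharP κ p] in
theorem coeff_P (c : ℕ → ℕ → κ) (n i : ℕ) (h : i < p ^ n) : (P p c n).coeff i = c n i := by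
  unfold P
  rw [finsetSum_coeff, Finset.sum_eq_single i]
  · rw [coeff_C_mul_X_pow, if_pos rfl]
  · intro j _ hj
    rw [coeff_C_mul_X_pow, if_neg fun h => hj h.symm]
  · intro h'
    exact absurd (Finset.mem_range.2 h) h'

omit [CharP κ p] in
theorem deg_P (c : ℕ → ℕ → κ) (n : ℕ) : (P p c n).natDegree < p ^ n := by
  have hp : 0 < p ^ n := pow_pos (Fact.out : p.Prime).pos n
  refine lt_of_le_of_lt (natDegree_sum_le_of_forall_le (n := p ^ n - 1) _ _ ?_) (by omega)
  intro i hi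
  rw [Finset.mem_range] at hi
  exact (natDegree_C_mul_X_pow_le _ _).trans (by omega)

theorem dvd_succ (c : ℕ → ℕ → κ)
    (hc : ∀ n i : ℕ, i < p ^ n → ∑ j ∈ Finset.range p, c (n + 1) (i + p ^ n * j) = c n i) (n : ℕ) :
    ((X : κ[X]) - C 1) ^ p ^ n ∣ P p c (n + 1) - P p c n := by
  have h1 : P p c (n + 1) = ∑ j ∈ Finset.range p, ∑ i ∈ Finset.range (p ^ n),
      C (c (n + 1) (i + p ^ n * j)) * X ^ (i + p ^ n * j) := by
    unfold P
    rw [pow_succ, sum_split]
  have h2 : P p c n = ∑ j ∈ Finset.range p, ∑ i ∈ Finset.range (p ^ n),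
      C (c (n + 1) (i + p ^ n * j)) * X ^ i := by
    unfold P
    rw [Finset.sum_comm]
    refine Finset.sum_congr rfl fun i hi => ?_
    rw [← hc n i (Finset.mem_range.1 hi), map_sum, Finset.sum_mul]
  rw [h1, h2, ← Finset.sum_sub_distrib]
  refine Finset.dvd_sum fun j _ => ?_
  rw [← Finset.sum_sub_distrib]
  refine Finset.dvd_sum fun i _ => ?_
  have h3 : C (c (n + 1) (i + p ^ n * j)) * X ^ (i + p ^ n * j) -
      C (c (n + 1) (i + p ^ n * j)) * X ^ i =
      C (c (n + 1) (i + p ^ n * j)) * X ^ i * (((X : κ[X]) ^ p ^ n) ^ j - 1 ^ j) := by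
    rw [one_pow, ← pow_mul, pow_add]
    ring
  rw [h3, pow_eq]
  exact Dvd.dvd.mul_left (sub_dvd_pow_sub_pow _ _ j) _

theorem dvd_all (c : ℕ → ℕ → κ)
    (hc : ∀ n i : ℕ, i < p ^ n → ∑ j ∈ Finset.range p, c (n + 1) (i + p ^ n * j) = c n i)
    (m n : ℕ) (h : m ≤ n) : ((X : κ[X]) - C 1) ^ p ^ m ∣ P p c n - P p c m := by
  induction n, h using Nat.le_induction with
  | base => rw [sub_self]; exact dvd_zero _
  | succ n hn ih =>
    have h1 : P p c (n + 1) - P p c m = (P p c (n + 1) - P p c n) + (P p c n - P p c m) := by ring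
    rw [h1]
    refine dvd_add (dvd_trans (pow_dvd_pow _ ?_) (dvd_succ c hc n)) ih
    exact Nat.pow_le_pow_right (Fact.out : p.Prime).pos hn

end PolAux

open PolAux

theorem tPol : S_Pol := by
  intro p _ κ W _ _ _ _ t c h1 hc h3 ⟨m, i, him, hci⟩
  have hP0 : P p c m ≠ 0 := by
    intro h
    apply hci
    rw [← coeff_P c m i him, h, coeff_zero]
  obtain ⟨Q, hQ, hQn⟩ := exists_eq_pow_rootMultiplicity_mul_and_not_dvd (P p c m) hP0 1
  obtain ⟨l, hl⟩ : ∃ l, l = rootMultiplicity 1 (P p c m) := ⟨_, rfl⟩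
  rw [← hl] at hQ
  have hlm : l < p ^ m := by
    by_contra hcon
    push Not at hcon
    have h4 : ((X : κ[X]) - C 1) ^ p ^ m ∣ P p c m := by
      rw [hQ]
      exact dvd_trans (pow_dvd_pow _ hcon) (dvd_mul_right _ _)
    apply hP0
    refine eq_zero_of_dvd_of_natDegree_lt h4 ?_
    rw [natDegree_pow, natDegree_X_sub_C, mul_one]
    exact deg_P c m
  refine ⟨l, fun x => ?_⟩
  obtain ⟨k, hk⟩ := h1 x
  obtain ⟨n', hn'⟩ := h3 x
  obtain ⟨R, hR⟩ := dvd_all c hc m (max m n') (le_max_left _ _)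
  have hPn := hn' (max m n') (le_max_right _ _)
  have e1 : P p c (max m n') = (X - C 1) ^ l * (Q + (X - C 1) ^ (p ^ m - l) * R) := by
    have h5 : P p c (max m n') = P p c m + (X - C 1) ^ p ^ m * R := by
      rw [← hR]
      ring
    have h6 : ((X : κ[X]) - C 1) ^ p ^ m = (X - C 1) ^ l * (X - C 1) ^ (p ^ m - l) := by
      rw [← pow_add, Nat.add_sub_cancel' hlm.le]
    rw [h5, mul_add, ← hQ, h6]
    ring
  have e2 : ¬ ((X : κ[X]) - C 1) ∣ Q + (X - C 1) ^ (p ^ m - l) * R := by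
    intro h
    have h7 : ((X : κ[X]) - C 1) ∣ (X - C 1) ^ (p ^ m - l) * R :=
      Dvd.dvd.mul_right (dvd_pow_self _ (by omega)) _
    exact hQn ((dvd_add_left h7).1 h)
  have e3 : IsCoprime ((X : κ[X]) - C 1) (Q + (X - C 1) ^ (p ^ m - l) * R) :=
    (irreducible_X_sub_C 1).coprime_iff_not_dvd.2 e2
  obtain ⟨A, B, hAB⟩ := (e3.pow_left (m := p ^ k))
  have e4 : (aeval t ((X - C 1) ^ p ^ k : κ[X])) x = 0 := by
    rw [pow_eq, map_sub, map_pow, aeval_X, map_one]
    rw [LinearMap.sub_apply, hk, Module.End.one_apply, sub_self]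
  have e5 : (aeval t (P p c (max m n'))) x = 0 := by
    rw [← hPn]
    unfold P
    rw [map_sum, LinearMap.sum_apply]
    refine Finset.sum_congr rfl fun i _ => ?_
    rw [map_mul, aeval_C, map_pow, aeval_X, Module.End.mul_apply, Module.algebraMap_end_apply]
  have e6 : ((t - 1) ^ l) x = (aeval t ((X - C 1) ^ l : κ[X])) x := by
    rw [map_pow, map_sub, aeval_X, aeval_C, map_one]
  have e7 : ((X - C 1) ^ l : κ[X]) = (X - C 1) ^ l * A * (X - C 1) ^ p ^ k +
      B * P p c (max m n') := by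
    rw [e1]
    calc ((X - C 1) ^ l : κ[X]) = (X - C 1) ^ l * 1 := (mul_one _).symm
      _ = (X - C 1) ^ l * (A * (X - C 1) ^ p ^ k +
          B * (Q + (X - C 1) ^ (p ^ m - l) * R)) := by rw [hAB]
      _ = _ := by ring
  rw [e6, e7, map_add, LinearMap.add_apply, map_mul, map_mul (aeval t) B, Module.End.mul_apply,
    Module.End.mul_apply, e4, e5, map_zero, map_zero, add_zero]

end Pool.Agent.FW
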