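import Pool.Agent.Lib.FW.SpecD

/-! FW, part D, `S_Rel`: the relation in terms of the lifts. -/

open scoped Pointwise

noncomputable section

namespace Pool.Agent.FW

open Pool.Agent.MuZ

theorem tRel : S_Rel := by
  intro hSV hIx p f _ _ hp hpf δ γ hδ hγ c hc g hg
  obtain ⟨n0, hn0⟩ := hSV p f hp (Nat.pos_of_ne_zero (NeZero.ne f)) hpf g hg
  refine ⟨n0, fun n hn hcm τ hτ => ?_⟩
  obtain ⟨x1, x2, _, x4, x5, x6⟩ := hIx p f hp hpf n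
  choose! B E I hI using x5
  have hfam : IsFam (f * p ^ (n + 1)) fun a => δ (B a) (E a) * γ ^ I a := by
    intro a ha z hz
    change (δ (B a) (E a) * γ ^ I a) z = z ^ a
    rw [x6 (B a) (E a) (I a) (δ (B a) (E a)) γ (hδ _ _) hγ z hz, (hI a ha).2]
  have key := hn0 n hn c hc hcm _ hfam τ hτ
  refine Eq.trans ?_ key
  have e1 : (∑ i ∈ Finset.range (p ^ n), ∑ b : (ZMod f)ˣ, ∑ η : (ZMod p)ˣ,
        ((wt (f * p ^ (n + 1)) c (ix p f n b η i) : ℤ) : ZMod p) *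
          ((η : ZMod p)⁻¹ * g (δ b η * γ ^ i * τ * (δ b η * γ ^ i)⁻¹))) =
      ∑ x ∈ Finset.range (p ^ n) ×ˢ ((Finset.univ : Finset (ZMod f)ˣ) ×ˢ
        (Finset.univ : Finset (ZMod p)ˣ)),
        ((wt (f * p ^ (n + 1)) c (ix p f n x.2.1 x.2.2 x.1) : ℤ) : ZMod p) *
          ((x.2.2 : ZMod p)⁻¹ * g (δ x.2.1 x.2.2 * γ ^ x.1 * τ * (δ x.2.1 x.2.2 * γ ^ x.1)⁻¹)) := by
    rw [Finset.sum_product]
    refine Finset.sum_congr rfl fun i _ => ?_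
    rw [Finset.sum_product]
  rw [e1]
  have hleft : ∀ x ∈ Finset.range (p ^ n) ×ˢ ((Finset.univ : Finset (ZMod f)ˣ) ×ˢ
        (Finset.univ : Finset (ZMod p)ˣ)), B (ix p f n x.2.1 x.2.2 x.1) = x.2.1 ∧
        E (ix p f n x.2.1 x.2.2 x.1) = x.2.2 ∧ I (ix p f n x.2.1 x.2.2 x.1) = x.1 := by
    rintro ⟨i, b, η⟩ hx
    have hi : i < p ^ n := Finset.mem_range.1 (Finset.mem_product.1 hx).1
    obtain ⟨h1, h2⟩ := hI _ (x1 b η i)
    exact x4 _ _ _ _ _ _ h1 hi h2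
  refine Finset.sum_nbij' (fun x => ix p f n x.2.1 x.2.2 x.1) (fun a => (I a, B a, E a))
    ?_ ?_ ?_ ?_ ?_
  · intro x _
    exact x1 _ _ _
  · intro a ha
    refine Finset.mem_product.2 ⟨Finset.mem_range.2 (hI a ha).1, Finset.mem_product.2
      ⟨Finset.mem_univ _, Finset.mem_univ _⟩⟩
  · intro x hx
    obtain ⟨h1, h2, h3⟩ := hleft x hx
    change (I (ix p f n x.2.1 x.2.2 x.1), B (ix p f n x.2.1 x.2.2 x.1),
      E (ix p f n x.2.1 x.2.2 x.1)) = x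
    rw [h1, h2, h3]
  · intro a ha
    exact (hI a ha).2
  · intro x hx
    obtain ⟨h1, h2, h3⟩ := hleft x hx
    change _ = ((wt (f * p ^ (n + 1)) c (ix p f n x.2.1 x.2.2 x.1) : ℤ) : ZMod p) *
      (((ix p f n x.2.1 x.2.2 x.1 : ℕ) : ZMod p)⁻¹ *
        g (δ (B (ix p f n x.2.1 x.2.2 x.1)) (E (ix p f n x.2.1 x.2.2 x.1)) *
          γ ^ I (ix p f n x.2.1 x.2.2 x.1) * τ *
          (δ (B (ix p f n x.2.1 x.2.2 x.1)) (E (ix p f n x.2.1 x.2.2 x.1)) *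
          γ ^ I (ix p f n x.2.1 x.2.2 x.1))⁻¹))
    rw [h1, h2, h3, x2]

end Pool.Agent.FW
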